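import Mathlib
import Pool.Agent.P.MP_4ef411_nt.Ps.Main

/-!
Every cubic becomes a product of factors of degree at most 66 after a substitution of degree 72.
-/

set_option autoImplicit false

open Polynomial

theorem Pool.Agent.Results.MP_4ef411_nt.CubicPolysmooth.result (P : ℤ[X]) (hP : P.natDegree = 3) :
    ∃ g : ℤ[X], g.natDegree = 72 ∧ 0 < g.leadingCoeff ∧
      ∀ h : ℤ[X], Irreducible h → h ∣ P.comp g → h.natDegree ≤ 66 := by
  have h0 : P.coeff 3 ≠ 0 := by
    rw [← hP]
    exact leadingCoeff_ne_zero.2 fun e => by simp [e] at hP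
  rcases lt_or_gt_of_ne h0 with h | h
  · obtain ⟨g, h1, h2, h3⟩ := Pool.Agent.P.MP_4ef411_nt.Ps.pos_case (-P) (by simpa using hP)
      (by simpa using h)
    exact ⟨g, h1, h2, fun w hw hd => h3 w hw (by rw [neg_comp]; exact hd.neg_right)⟩
  · exact Pool.Agent.P.MP_4ef411_nt.Ps.pos_case P hP h
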