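import Mathlib
import Pool.Agent.P.MP_4ef411_nt.Monic

/-!
Every integer cubic has infinitely many values whose prime factors are at most `C n^(3/4)`.
-/

set_option autoImplicit false

open Polynomial

namespace Pool.Agent.Results.MP_4ef411_nt.CubicSmooth

open Pool.Agent.P.MP_4ef411_nt

theorem coeffs (e a b c : ℤ) (he : 0 < e) :
    ∃ C : ℝ, ∀ N : ℕ, ∃ n : ℕ, N ≤ n ∧ e * n ^ 3 + a * n ^ 2 + b * n + c ≠ 0 ∧
      ∀ p : ℕ, p.Prime → (p : ℤ) ∣ e * n ^ 3 + a * n ^ 2 + b * n + c →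
        (p : ℝ) ≤ C * (n : ℝ) ^ (3 / 4 : ℝ) := by
  obtain ⟨K, hK, h⟩ := monic_smooth a (4 * e * b) (8 * e ^ 2 * c) (2 * e) (by positivity)
  refine ⟨(K * (2 * e) ^ 3) ^ (1 / 4 : ℝ), fun N => ?_⟩
  obtain ⟨_, h1, ⟨m, rfl⟩, h3, h4⟩ := h ((2 * e).toNat * N)
  have h2 : (N : ℤ) ≤ m := by
    rw [Nat.cast_mul, Int.toNat_of_nonneg (by positivity)] at h1
    exact le_of_mul_le_mul_left h1 (by positivity)
  obtain ⟨n, rfl⟩ := Int.eq_ofNat_of_zero_le ((Int.natCast_nonneg N).trans h2)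
  have e1 : (2 * e * n) ^ 3 + 2 * a * (2 * e * n) ^ 2 + 4 * e * b * (2 * e * n) + 8 * e ^ 2 * c =
      8 * e ^ 2 * (e * n ^ 3 + a * n ^ 2 + b * n + c) := by ring
  rw [e1] at h3 h4
  refine ⟨n, by exact_mod_cast h2, right_ne_zero_of_mul h3, fun p hp hd => ?_⟩
  have h5 := h4 p hp (hd.mul_left _)
  have he' : (0 : ℝ) < e := by exact_mod_cast he
  refine le_of_pow_le_pow_left₀ (n := 4) (by norm_num) (by positivity) (h5.trans_eq ?_)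
  rw [mul_pow, ← Real.rpow_natCast, ← Real.rpow_natCast ((n : ℝ) ^ (3 / 4 : ℝ)),
    ← Real.rpow_natCast (_ ^ (1 / 4 : ℝ)), ← Real.rpow_mul (by positivity),
    ← Real.rpow_mul (by positivity)]
  norm_num
  ring

theorem result (P : ℤ[X]) (hP : P.natDegree = 3) :
    ∃ C : ℝ, ∀ N : ℕ, ∃ n : ℕ, N ≤ n ∧ P.eval (n : ℤ) ≠ 0 ∧
      ∀ p : ℕ, p.Prime → (p : ℤ) ∣ P.eval (n : ℤ) → (p : ℝ) ≤ C * (n : ℝ) ^ (3 / 4 : ℝ) := by
  have h1 : ∀ x : ℤ, P.eval x =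
      P.coeff 3 * x ^ 3 + P.coeff 2 * x ^ 2 + P.coeff 1 * x + P.coeff 0 := fun x => by
    rw [eval_eq_sum_range, hP]
    simp only [Finset.sum_range_succ, Finset.sum_range_zero]
    ring
  have h2 : P.coeff 3 ≠ 0 := by
    rw [← hP]
    exact leadingCoeff_ne_zero.2 fun h => by simp [h] at hP
  rcases lt_or_gt_of_ne h2 with h | h
  · obtain ⟨C, hC⟩ := coeffs (-P.coeff 3) (-P.coeff 2) (-P.coeff 1) (-P.coeff 0) (by linarith)
    refine ⟨C, fun N => ?_⟩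
    obtain ⟨n, h3, h4, h5⟩ := hC N
    have e : -P.coeff 3 * (n : ℤ) ^ 3 + -P.coeff 2 * n ^ 2 + -P.coeff 1 * n + -P.coeff 0 =
        -P.eval (n : ℤ) := by rw [h1]; ring
    rw [e] at h4 h5
    exact ⟨n, h3, neg_ne_zero.1 h4, fun p hp hd => h5 p hp (dvd_neg.2 hd)⟩
  · simpa only [h1] using coeffs _ (P.coeff 2) (P.coeff 1) (P.coeff 0) h

end Pool.Agent.Results.MP_4ef411_nt.CubicSmooth
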