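import Pool.Agent.P.MP_4ef411_nt.Al.Sm
import Pool.Agent.P.MP_4ef411_nt.Al.Top

namespace Pool.Agent.Results.MP_4ef411_nt.SplitDickmanAll

open Pool.Agent.P.MP_4ef411_nt.Sm

/-- The smooth values of polynomials with rational roots and no common root obey the product of
Dickman laws, one factor for each distinct root, uniformly for y i at least a power of x. -/
theorem result : ∃ ρ : ℝ → ℝ, Dickman ρ ∧
    ∀ (r : ℕ) (P : Fin r → Polynomial ℤ), 0 < r →
      (∀ i, 0 < (P i).natDegree) → (∀ i, ((P i).map (algebraMap ℤ ℚ)).Splits) →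
      (∀ i j, i ≠ j → Disjoint ((P i).rootSet ℚ) ((P j).rootSet ℚ)) →
      ∀ η ε : ℝ, 0 < η → 0 < ε → ∃ x0 : ℝ, ∀ x : ℝ, x0 ≤ x → ∀ y : Fin r → ℝ,
        (∀ i, x ^ η ≤ y i) →
        |(PsiS P x y : ℝ) / x -
          ∏ i, ρ (Real.log x / Real.log (y i)) ^ ((P i).rootSet ℚ).ncard| ≤ ε := by
  classical
  obtain ⟨ρ, hρ⟩ := exists_dickman
  refine ⟨ρ, hρ, fun r P hr hP hs hd η ε hη hε => ?_⟩
  have e : ∀ i, (P i).rootSet ℚ = ((P i).map (Int.castRingHom ℚ)).roots.toFinset := fun i =>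
    Polynomial.rootSet_def _ _
  simp only [e, Set.ncard_coe_finset] at hd ⊢
  exact Filter.eventually_atTop.1
    (Pool.Agent.P.MP_4ef411_nt.Al.SmP.sys Pool.Agent.P.MP_4ef411_nt.Al.ga_all hρ hr hP hs
      (fun i j hij q hq hq' => Set.disjoint_left.mp (hd i j hij)
        (Finset.mem_coe.mpr (Multiset.mem_toFinset.mpr hq))
        (Finset.mem_coe.mpr (Multiset.mem_toFinset.mpr hq'))) hη hε)

end Pool.Agent.Results.MP_4ef411_nt.SplitDickmanAll
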