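import Mathlib
import Pool.Agent.P.MP_4ef411_nt.Five.Pick

/-!
For a nonzero integer polynomial of degree at most five there are infinitely many arguments at
which the values of all its factors are square-root smooth up to a constant.
-/

set_option autoImplicit false

open Polynomial

namespace Pool.Agent.Results.MP_4ef411_nt.SqrtSmoothFive

open Pool.Agent.P.MP_4ef411_nt.Five

theorem pos_five (P : ℤ[X]) (hP : P.natDegree = 5) (h : 0 < P.coeff 5) :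
    ∃ K : ℝ, ∀ N : ℕ, ∃ n : ℕ, N ≤ n ∧ P.eval (n : ℤ) ≠ 0 ∧ ∀ Q : ℤ[X], Q ∣ P →
      ∀ p : ℕ, p.Prime → (p : ℤ) ∣ Q.eval (n : ℤ) →
        (p : ℝ) ≤ K * (n : ℝ) ^ ((Q.natDegree : ℝ) / 2) := by
  refine quintic (P.coeff 5) (P.coeff 4) (P.coeff 3) (P.coeff 2) (P.coeff 1) (P.coeff 0) h P ?_
  refine Polynomial.funext fun x => ?_
  rw [eval_eq_sum_range, hP]
  simp only [Finset.sum_range_succ, Finset.sum_range_zero, eval_add, eval_mul, eval_pow, eval_C,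
    eval_X]
  ring

theorem five (P : ℤ[X]) (hP : P.natDegree = 5) :
    ∃ K : ℝ, ∀ N : ℕ, ∃ n : ℕ, N ≤ n ∧ P.eval (n : ℤ) ≠ 0 ∧ ∀ Q : ℤ[X], Q ∣ P →
      ∀ p : ℕ, p.Prime → (p : ℤ) ∣ Q.eval (n : ℤ) →
        (p : ℝ) ≤ K * (n : ℝ) ^ ((Q.natDegree : ℝ) / 2) := by
  have h2 : P.coeff 5 ≠ 0 := by
    rw [← hP]
    exact leadingCoeff_ne_zero.2 fun h => by simp [h] at hP
  rcases lt_or_gt_of_ne h2 with h | h
  · obtain ⟨K, hK⟩ := pos_five (-P) (by rw [natDegree_neg, hP]) (by rw [coeff_neg]; linarith)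
    refine ⟨K, fun N => ?_⟩
    obtain ⟨n, h3, h4, h5⟩ := hK N
    rw [eval_neg, neg_ne_zero] at h4
    exact ⟨n, h3, h4, fun Q hQ => h5 Q (dvd_neg.2 hQ)⟩
  · exact pos_five P hP h

theorem result (P : ℤ[X]) (h0 : P ≠ 0) (hP : P.natDegree ≤ 5) :
    ∃ C : ℝ, ∀ N : ℕ, ∃ n : ℕ, N ≤ n ∧ P.eval (n : ℤ) ≠ 0 ∧ ∀ Q : ℤ[X], Q ∣ P →
      ∀ p : ℕ, p.Prime → (p : ℤ) ∣ Q.eval (n : ℤ) →
        (p : ℝ) ≤ C * (n : ℝ) ^ ((Q.natDegree : ℝ) / 2) := by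
  obtain ⟨K, hK⟩ := five (P * X ^ (5 - P.natDegree)) (by
    rw [natDegree_mul_X_pow _ h0]
    omega)
  refine ⟨K, fun N => ?_⟩
  obtain ⟨n, h3, h4, h5⟩ := hK N
  rw [eval_mul] at h4
  exact ⟨n, h3, left_ne_zero_of_mul h4, fun Q hQ => h5 Q (hQ.mul_right _)⟩

end Pool.Agent.Results.MP_4ef411_nt.SqrtSmoothFive
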